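import Pool.Agent.Y719.BP.Main
import Pool.Agent.Y719.EL.NF8

/-!
# Serre's conjecture over imaginary quadratic fields: two moduli on the edge decide

Let `K` be an imaginary quadratic field, `ρ` a continuous representation of `G_K` of dimension 2 over the
algebraic closure of `𝔽_p` whose determinant is the cyclotomic character, and `Φ` a mod `p` eigenform,
which enters through its eigenvalues `a_v = Φ(T_v)`.  Let `T` be an injective multiplicative map
from the algebraic closure of `𝔽_p` to `ℂ`, for example the Teichmueller lift followed by an embedding.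
Then `ρ` and `Φ` have Euler products over `ℂ`, with the eigenvalues `T(α)` for the eigenvalues `α` of
`ρ(Frob_v)` and for the roots `α` of `X² - a_v X + Nv`; they converge for `Re s > 1`.  Nothing is
known about a continuation of the Euler product of `Φ`, for which no Galois representation is needed.
Let `ψ` be one unramified Groessencharacter of infinite order, for class number one for example
`ψ((α)) = (α/|α|)^w` where `w` is the number of roots of unity.  We show that `ρ` is modular by `Φ`,
that is `tr ρ(Frob_v) = Φ(T_v)` at every place `v` not above `S`, if and only if on the line `Re s = 1`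
the absolute values `|L(Tρ, s)|` and `|L(TΦ, s)|` agree and those of the twists by `ψ` agree too, and
that it is enough to know the two quotients of absolute values to be nearly constant on a set of
positive upper density of the line.
-/

set_option autoImplicit false

namespace Pool.Agent.Results.MP_94f623_nt.TwoModuli

open NumberField IsDedekindDomain MeasureTheory Filter Topology Polynomial

/-- The lift to `ℂ` of a monic polynomial `Q` over the algebraic closure of `𝔽_p`:
`∏ (1 - T(α) X)` for the roots `α` of `Q`. -/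
noncomputable def lift {p : ℕ} [Fact p.Prime] (T : AlgebraicClosure (ZMod p) →*₀ ℂ)
    (Q : (AlgebraicClosure (ZMod p))[X]) : ℂ[X] :=
  (Q.roots.map fun α => 1 - C (T α) * X).prod

section
variable {K : Type} [Field K] [NumberField K] {p : ℕ} [Fact p.Prime]

/-- `g` is a Frobenius element at `v`: for some maximal ideal `Q` above `v` of the ring of all
algebraic integers, `g x ≡ x ^ N(v)` modulo `Q` for all `x`. -/
def Frobenius (v : HeightOneSpectrum (𝓞 K)) (g : Gal(AlgebraicClosure K/K)) : Prop :=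
  ∃ Q : Ideal (𝓞 (AlgebraicClosure K)), Q.IsMaximal ∧
    Q.comap (algebraMap (𝓞 K) (𝓞 (AlgebraicClosure K))) = v.asIdeal ∧
    ∀ x : 𝓞 (AlgebraicClosure K), g • x - x ^ Ideal.absNorm v.asIdeal ∈ Q

/-- The matrix of `g`. -/
noncomputable def matrix
    (ρ : Gal(AlgebraicClosure K/K) →* GL (Fin 2) (AlgebraicClosure (ZMod p)))
    (g : Gal(AlgebraicClosure K/K)) : Matrix (Fin 2) (Fin 2) (AlgebraicClosure (ZMod p)) :=
  (ρ g : GL (Fin 2) (AlgebraicClosure (ZMod p)))

/-- `v` lies above a prime number in `S`. -/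
def Bad (S : Finset ℕ) (v : HeightOneSpectrum (𝓞 K)) : Prop :=
  ∃ q ∈ S, (q : 𝓞 K) ∈ v.asIdeal

/-- `Q` is the family of characteristic polynomials of `ρ` away from `S`: `Q_v` is `1` for `v` above
`S`, and for all other `v` it is the characteristic polynomial of `ρ(g)` for the Frobenius elements
`g` at `v`, and the determinant of `ρ(g)` is `Nv`. -/
structure FrobeniusPolynomials (S : Finset ℕ)
    (ρ : Gal(AlgebraicClosure K/K) →* GL (Fin 2) (AlgebraicClosure (ZMod p)))
    (Q : HeightOneSpectrum (𝓞 K) → (AlgebraicClosure (ZMod p))[X]) : Prop where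
  bad : ∀ v, Bad S v → Q v = 1
  frobenius : ∀ v, ¬ Bad S v → ∀ g, Frobenius v g → (matrix ρ g).charpoly = Q v
  det : ∀ v, ¬ Bad S v → ∀ g, Frobenius v g →
    (matrix ρ g).det = (Ideal.absNorm v.asIdeal : AlgebraicClosure (ZMod p))

open Classical in
/-- The Hecke polynomials of the eigenform with the eigenvalues `a_v`: `X² - a_v X + Nv`, and `1` for
`v` above `S`. -/
noncomputable def hecke (S : Finset ℕ) (a : HeightOneSpectrum (𝓞 K) → AlgebraicClosure (ZMod p))
    (v : HeightOneSpectrum (𝓞 K)) : (AlgebraicClosure (ZMod p))[X] :=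
  if Bad S v then 1 else
    X ^ 2 - C (a v) * X + C (Ideal.absNorm v.asIdeal : AlgebraicClosure (ZMod p))

/-- `ψ` is an unramified Groessencharacter of infinite order: a multiplicative function on the ideals
with `ψ((a)) = (σ(a)/|σ(a)|)^m` for all `a ≠ 0`, with an integer `m ≠ 0`. -/
def IsGroessen (σ : K →+* ℂ) (ψ : Ideal (𝓞 K) →* ℂ) : Prop :=
  ∃ m : ℤ, m ≠ 0 ∧ ∀ a : 𝓞 K, a ≠ 0 → ψ (Ideal.span {a}) = (σ a / (‖σ a‖ : ℂ)) ^ m

/-- The Euler product with the lifts of the polynomials `Q_v`, twisted by `χ`: the product of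
`(1 - T(α) χ(v) Nv^{-s})⁻¹` over the places `v` and the roots `α` of `Q_v`. -/
noncomputable def L (T : AlgebraicClosure (ZMod p) →*₀ ℂ)
    (Q : HeightOneSpectrum (𝓞 K) → (AlgebraicClosure (ZMod p))[X]) (χ : Ideal (𝓞 K) →* ℂ)
    (s : ℂ) : ℂ :=
  ∏' v : HeightOneSpectrum (𝓞 K),
    ((lift T (Q v)).eval (χ v.asIdeal * (Ideal.absNorm v.asIdeal : ℂ) ^ (-s)))⁻¹

/-- The limit of `|L(1 + σ + iτ)|` for `σ → 0`, `σ > 0`. -/
noncomputable def edgeAbs (T : AlgebraicClosure (ZMod p) →*₀ ℂ)
    (Q : HeightOneSpectrum (𝓞 K) → (AlgebraicClosure (ZMod p))[X]) (χ : Ideal (𝓞 K) →* ℂ)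
    (τ : ℝ) : ℝ :=
  limUnder (𝓝[>] (0 : ℝ)) fun σ : ℝ => ‖L T Q χ (1 + σ + τ * Complex.I)‖

end

/-- The values of `f` are concentrated: there is `δ > 0` such that for every `ε > 0` there are
arbitrarily large `T` and a real number `x` with `|f - x| < ε` on a subset of `(0, T]` of measure at
least `δ T`. -/
def Concentrated (f : ℝ → ℝ) : Prop :=
  ∃ δ : ℝ, 0 < δ ∧ ∀ ε : ℝ, 0 < ε → ∃ᶠ T : ℝ in atTop, ∃ x : ℝ,
    ENNReal.ofReal (δ * T) ≤ volume {τ | τ ∈ Set.Ioc 0 T ∧ |f τ - x| < ε}

/-- **Two moduli decide about modularity modulo `p`.**  Let `K` be an imaginary quadratic field and `σ`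
an embedding in the complex numbers.  There are unramified Groessencharacters of infinite order.  Let
`ψ` be one of them, `ρ` a representation of `G_K` of dimension 2 over the algebraic closure of `𝔽_p`
with the characteristic polynomials `Q` of the Frobenius elements away from `S` and with cyclotomic
determinant, and `a` the eigenvalues of a mod `p` eigenform `Φ`.

* For almost all real `τ` the limits `|L(Tρ, 1 + iτ)|`, `|L(Tρ ⊗ ψ, 1 + iτ)|`, `|L(TΦ, 1 + iτ)|`,
  `|L(TΦ ⊗ ψ, 1 + iτ)|` exist and are positive.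
* The following are equivalent: `tr ρ(Frob_v) = a_v` for every place `v` not above `S`; for almost all
  `τ` the moduli of `ρ` and `Φ` agree, and those of their twists by `ψ` too; the logarithms of the two
  quotients of moduli are concentrated, for example constant on sets of positive upper density. -/
theorem result (K : Type) [Field K] [NumberField K] [IsTotallyComplex K]
    (hK : Module.finrank ℚ K = 2) (σ : K →+* ℂ) (p : ℕ) [Fact p.Prime]
    (T : AlgebraicClosure (ZMod p) →*₀ ℂ) (hT : Function.Injective T) (S : Finset ℕ)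
    (ρ : Gal(AlgebraicClosure K/K) →* GL (Fin 2) (AlgebraicClosure (ZMod p)))
    (Q : HeightOneSpectrum (𝓞 K) → (AlgebraicClosure (ZMod p))[X])
    (hQ : FrobeniusPolynomials S ρ Q)
    (a : HeightOneSpectrum (𝓞 K) → AlgebraicClosure (ZMod p)) :
    (∃ ψ : Ideal (𝓞 K) →* ℂ, IsGroessen σ ψ) ∧
    ∀ ψ : Ideal (𝓞 K) →* ℂ, IsGroessen σ ψ →
      (∀ R ∈ [Q, hecke S a], ∀ χ ∈ [1, ψ], ∀ᵐ τ : ℝ, 0 < edgeAbs T R χ τ ∧
        Tendsto (fun σ : ℝ => ‖L T R χ (1 + σ + τ * Complex.I)‖) (𝓝[>] 0)
          (𝓝 (edgeAbs T R χ τ))) ∧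
      List.TFAE
        [∀ v, ¬ Bad S v → ∀ g, Frobenius v g → (matrix ρ g).trace = a v,
         (∀ᵐ τ : ℝ, edgeAbs T Q 1 τ = edgeAbs T (hecke S a) 1 τ) ∧
           ∀ᵐ τ : ℝ, edgeAbs T Q ψ τ = edgeAbs T (hecke S a) ψ τ,
         (Concentrated fun τ => Real.log (edgeAbs T Q 1 τ) -
            Real.log (edgeAbs T (hecke S a) 1 τ)) ∧
           Concentrated fun τ => Real.log (edgeAbs T Q ψ τ) -
            Real.log (edgeAbs T (hecke S a) ψ τ)] := by
  classical
  refine ⟨?_, ?_⟩
  · obtain ⟨m, ψ, hm, hψ⟩ := Pool.Agent.Y719.EL.N.exists_groessen hK σ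
    exact ⟨ψ, m, hm, hψ⟩
  rintro ψ ⟨m, hm, hψ⟩
  -- the representation
  have hQdeg : ∀ v, (Q v).natDegree ≤ 2 := by
    intro v
    by_cases hv : Bad S v
    · rw [hQ.bad v hv, natDegree_one]
      exact Nat.zero_le _
    · obtain ⟨g, hg⟩ := Pool.Agent.W401.Frob.exists_frob v
      rw [← hQ.frobenius v hv g hg, Matrix.charpoly_natDegree_eq_dim, Fintype.card_fin]
  have hE' := Pool.Agent.Y719.BP.typ_lift T hQdeg
  -- the eigenform
  have hHdeg : ∀ v, (hecke S a v).natDegree ≤ 2 := by
    intro v
    unfold hecke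
    by_cases hv : Bad S v
    · rw [if_pos hv, natDegree_one]
      exact Nat.zero_le _
    · rw [if_neg hv]
      compute_degree
  have hF' := Pool.Agent.Y719.BP.typ_lift T hHdeg
  -- the twists
  have hsep := Pool.Agent.Y719.EL.N.sep_pow (N := 2) (K := K) (ψ := fun v => ψ v.asIdeal)
    fun v w hvw k l hk _ hl _ hkl =>
      Pool.Agent.Y719.EL.N.groessen_sep hK hm hψ hvw hk hl hkl
  have hnorm : ∀ (j : Fin (Module.finrank ℚ K)) (v : HeightOneSpectrum (𝓞 K)),
      ‖ψ v.asIdeal ^ (j : ℕ)‖ ≤ 1 := fun j v => by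
    rw [norm_pow, Pool.Agent.Y719.EL.N.groessen_norm hψ v, one_pow]
  have hL : ∀ (R : HeightOneSpectrum (𝓞 K) → (AlgebraicClosure (ZMod p))[X])
      (χ : Ideal (𝓞 K) →* ℂ),
      Pool.Agent.Y719.EL.N.LS (fun v => Pool.Agent.Y719.BP.lift T (R v)) (fun v => χ v.asIdeal) =
        L T R χ := fun R χ => rfl
  have he : ∀ (R : HeightOneSpectrum (𝓞 K) → (AlgebraicClosure (ZMod p))[X])
      (χ : Ideal (𝓞 K) →* ℂ) (τ : ℝ),
      Pool.Agent.Y719.EL.N.eA 0 (fun v => Pool.Agent.Y719.BP.lift T (R v))
        (fun v => χ v.asIdeal) τ = edgeAbs T R χ τ := by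
    intro R χ τ
    unfold Pool.Agent.Y719.EL.N.eA edgeAbs
    rw [hL]
    congr 1
    funext σ
    congr 2
    push_cast
    ring
  have hone : (fun v : HeightOneSpectrum (𝓞 K) => ψ v.asIdeal ^ 0) =
      fun v => (1 : Ideal (𝓞 K) →* ℂ) v.asIdeal := by
    funext v
    simp
  have hfst : (fun v : HeightOneSpectrum (𝓞 K) => ψ v.asIdeal ^ 1) = fun v => ψ v.asIdeal := by
    funext v
    rw [pow_one]
  have hall : ∀ Q : ℕ → Prop, (∀ j : Fin (Module.finrank ℚ K), Q j) ↔ Q 0 ∧ Q 1 := by
    intro Q
    rw [hK]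
    exact Fin.forall_fin_two
  refine ⟨fun R hR χ hχ => ?_, ?_⟩
  · have hχ1 : ∀ v : HeightOneSpectrum (𝓞 K), ‖χ v.asIdeal‖ ≤ 1 := by
      intro v
      simp only [List.mem_cons, List.not_mem_nil, or_false] at hχ
      rcases hχ with rfl | rfl
      · simp
      · exact (Pool.Agent.Y719.EL.N.groessen_norm hψ v).le
    have hPt : Pool.Agent.Y719.EL.N.Typ (Pool.Agent.Y719.EL.N.nz 0
        fun v => Pool.Agent.Y719.BP.lift T (R v)) 2 := by
      simp only [List.mem_cons, List.not_mem_nil, or_false] at hR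
      rcases hR with rfl | rfl
      · exact hE'
      · exact hF'
    filter_upwards [Pool.Agent.Y719.EL.N.eA_edge hPt hχ1] with τ hτ
    rw [he, hL] at hτ
    refine ⟨hτ.1, ?_⟩
    refine (tendsto_congr fun σ => ?_).1 hτ.2
    congr 2
    push_cast
    ring
  · have h1 := Pool.Agent.Y719.EL.N.main_w (κ := Unit) (w := 0)
      (P₀ := fun v => Pool.Agent.Y719.BP.lift T (Q v))
      (P := fun _ v => Pool.Agent.Y719.BP.lift T (hecke S a v)) (N₀ := 2) (n := fun _ => 2)
      (M := 2) hE' (fun _ => hF') (fun _ => 0) hnorm le_rfl (by simp) hsep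
    simp only [Finset.univ_unique, Finset.prod_singleton, Finset.sum_singleton, add_zero] at h1
    have hshp : ∀ v, Pool.Agent.Y719.EL.N.shp
        (fun _ : Unit => fun v => Pool.Agent.Y719.BP.lift T (hecke S a v)) (fun _ => 0) v =
        Pool.Agent.Y719.BP.lift T (hecke S a v) := by
      intro v
      unfold Pool.Agent.Y719.EL.N.shp
      simp
    simp_rw [hshp] at h1
    rw [hall fun j => ∀ᵐ τ : ℝ, Pool.Agent.Y719.EL.N.eA 0
        (fun v => Pool.Agent.Y719.BP.lift T (Q v)) (fun v => ψ v.asIdeal ^ j) τ =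
        Pool.Agent.Y719.EL.N.eA 0 (fun v => Pool.Agent.Y719.BP.lift T (hecke S a v))
        (fun v => ψ v.asIdeal ^ j) τ,
      hall fun j => Pool.Agent.Y774.MD.Concentrated fun τ =>
        Real.log (Pool.Agent.Y719.EL.N.eA 0 (fun v => Pool.Agent.Y719.BP.lift T (Q v))
          (fun v => ψ v.asIdeal ^ j) τ) -
        Real.log (Pool.Agent.Y719.EL.N.eA 0 (fun v => Pool.Agent.Y719.BP.lift T (hecke S a v))
          (fun v => ψ v.asIdeal ^ j) τ), hone, hfst] at h1
    simp_rw [he] at h1
    have key : (∀ v, Pool.Agent.Y719.BP.lift T (Q v) =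
          Pool.Agent.Y719.BP.lift T (hecke S a v)) ↔
        ∀ v, ¬ Bad S v → ∀ g, Frobenius v g → (matrix ρ g).trace = a v := by
      constructor
      · intro h v hv g hg
        have h2 := h v
        have hd := hQ.det v hv g hg
        rw [← hQ.frobenius v hv g hg] at h2
        have hH : hecke S a v = X ^ 2 - C (a v) * X +
            C (Ideal.absNorm v.asIdeal : AlgebraicClosure (ZMod p)) := if_neg hv
        have hmon : (hecke S a v).Monic := by
          rw [hH]
          monicity!
        have hdet : (matrix ρ g).det ≠ 0 := by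
          have h3 : IsUnit (matrix ρ g).det :=
            (Matrix.isUnit_iff_isUnit_det _).1 (ρ g).isUnit
          exact h3.ne_zero
        have hz : (hecke S a v).eval 0 ≠ 0 := by
          rw [hH]
          simp only [eval_add, eval_sub, eval_pow, eval_X, eval_mul, eval_C, mul_zero, ne_eq,
            OfNat.ofNat_ne_zero, not_false_eq_true, zero_pow, sub_zero, zero_add]
          rw [← hd]
          exact hdet
        have hz' : (matrix ρ g).charpoly.eval 0 ≠ 0 :=
          Pool.Agent.Y719.BP.zero_not_root ρ g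
        have h4 := Pool.Agent.Y719.BP.lift_injective hT (Matrix.charpoly_monic _) hmon
          (fun h0 => hz' (mem_roots'.1 h0).2) (fun h0 => hz (mem_roots'.1 h0).2) h2
        rw [Matrix.charpoly_fin_two, hH] at h4
        have h5 := congrArg (fun P : (AlgebraicClosure (ZMod p))[X] => P.coeff 1) h4
        simp [coeff_X, coeff_C] at h5
        exact h5
      · intro h v
        by_cases hv : Bad S v
        · rw [hQ.bad v hv]
          unfold hecke
          rw [if_pos hv]
        · obtain ⟨g, hg⟩ := Pool.Agent.W401.Frob.exists_frob v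
          rw [← hQ.frobenius v hv g hg, Matrix.charpoly_fin_two, h v hv g hg,
            hQ.det v hv g hg]
          unfold hecke
          rw [if_neg hv]
    rw [key] at h1
    exact h1

end Pool.Agent.Results.MP_94f623_nt.TwoModuli
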